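import Pool.Agent.Run7.h102.LS.Stm

/-! # Piece FIL of the project LS (helper67) -/

set_option autoImplicit false

namespace Run7.h67.LS

open MvPolynomial Finset Run7.h102.LS

section hom
variable {m : ℕ}

attribute [local instance] MvPolynomial.gradedAlgebra

/-- the quotient of homogeneous polynomials is homogeneous -/
theorem hom_quot {d n : ℕ} {Q F : MvPolynomial (Fin m) K} (hQ : Q.IsHomogeneous d) (hQ0 : Q ≠ 0)
    (h : (Q * F).IsHomogeneous n) : (d ≤ n → F.IsHomogeneous (n - d)) ∧ (n < d → F = 0) := by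
  classical
  have key : ∀ i, d + i ≠ n →
      (DirectSum.decompose (homogeneousSubmodule (Fin m) K) F i : MvPolynomial (Fin m) K) = 0 := by
    intro i hi
    have h1 := DirectSum.coe_decompose_mul_add_of_left_mem (homogeneousSubmodule (Fin m) K)
      (i := d) (j := i) (a := Q) (b := F) hQ
    rw [DirectSum.decompose_of_mem_ne (homogeneousSubmodule (Fin m) K) (x := Q * F) (i := n) h
      (Ne.symm hi)] at h1
    exact (mul_eq_zero.1 h1.symm).resolve_left hQ0
  have hsum := DirectSum.sum_support_decompose (homogeneousSubmodule (Fin m) K) F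
  constructor
  · intro hdn
    rw [← hsum]
    refine (homogeneousSubmodule (Fin m) K (n - d)).sum_mem fun i hi => ?_
    by_cases hi' : d + i = n
    · have : i = n - d := by omega
      subst this
      exact (DirectSum.decompose (homogeneousSubmodule (Fin m) K) F (n - d)).2
    · rw [key i hi']
      exact Submodule.zero_mem _
  · intro hdn
    rw [← hsum]
    exact Finset.sum_eq_zero fun i _ => key i (by omega)

end hom

instance fin_hom (m n : ℕ) : Module.Finite K (homogeneousSubmodule (Fin m) K n) :=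
  Module.Finite.iff_fg.2 (homogeneousSubmodule_fg (Fin m) K n)

theorem lf_ne {m : ℕ} {S : Finset (Fin m)} (hS : S.Nonempty) : lf S ≠ 0 := by
  obtain ⟨i, hi⟩ := hS
  intro h
  have h1 := congrArg (MvPolynomial.eval (Pi.single i 1 : Fin m → K)) h
  rw [lf, map_sum, map_zero] at h1
  simp only [eval_X] at h1
  rw [Finset.sum_eq_single i] at h1
  · simp at h1
  · intro j _ hj
    simp [hj]
  · intro hi'
    exact absurd hi hi'

theorem lf_hom {m : ℕ} (S : Finset (Fin m)) : (lf S).IsHomogeneous 1 :=
  MvPolynomial.IsHomogeneous.sum _ _ _ fun i _ => isHomogeneous_X K i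

theorem fam_nonempty {m : ℕ} (hm : 3 ≤ m) {S : Finset (Fin m)} (hS : S ∈ fam m) : S.Nonempty := by
  rw [fam, Finset.mem_filter] at hS
  rw [← Finset.card_pos]
  omega

/-- the product of all forms -/
noncomputable def PP (m : ℕ) : MvPolynomial (Fin m) K := ∏ S ∈ fam m, lf S

theorem PP_ne {m : ℕ} (hm : 3 ≤ m) : PP m ≠ 0 :=
  Finset.prod_ne_zero_iff.2 fun _ hS => lf_ne (fam_nonempty hm hS)

theorem PP_hom (m : ℕ) : (PP m).IsHomogeneous (fam m).card := by
  have := MvPolynomial.IsHomogeneous.prod (fam m) (fun S => lf S) (fun _ => 1)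
    (fun S _ => lf_hom S)
  rw [Finset.sum_const, smul_eq_mul, mul_one] at this
  exact this

/-- rearrangements of the variables -/
theorem perm_Xs {r : ℕ} (hr : 1 ≤ r) {w : List (MvPolynomial (Fin r) K)} (hw : w.Perm (Xs K r)) :
    ∃ σ : Equiv.Perm (Fin r), ∀ i : Fin r, w.getD i 0 = X (σ i) := by
  classical
  have : Nonempty (Fin r) := ⟨⟨0, hr⟩⟩
  have hinj : Function.Injective (X : Fin r → MvPolynomial (Fin r) K) := X_injective
  set g : MvPolynomial (Fin r) K → Fin r := Function.invFun X with hg
  have hgX : ∀ i, g (X i) = i := Function.leftInverse_invFun hinj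
  set l := w.map g with hl
  have hl1 : l.Perm (List.finRange r) := by
    have := hw.map g
    rw [Xs, List.map_map] at this
    have e : (g ∘ X : Fin r → Fin r) = id := funext hgX
    rwa [e, List.map_id] at this
  have hl2 : l.map X = w := by
    rw [hl, List.map_map]
    conv_rhs => rw [← List.map_id w]
    refine List.map_congr_left fun a ha => ?_
    have ha' := hw.mem_iff.1 ha
    rw [Xs, List.mem_map] at ha'
    obtain ⟨i, _, rfl⟩ := ha'
    simp [hgX]
  have hlen : l.length = r := by rw [hl1.length_eq, List.length_finRange]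
  have hnd : l.Nodup := hl1.nodup_iff.2 (List.nodup_finRange r)
  let f : Fin r → Fin r := fun i => l.get (Fin.cast hlen.symm i)
  have hf : Function.Injective f := by
    intro i j hij
    have := (List.nodup_iff_injective_get.1 hnd) hij
    simpa using this
  refine ⟨Equiv.ofBijective f (Finite.injective_iff_bijective.1 hf), fun i => ?_⟩
  show w.getD i 0 = X (f i)
  have hi : (i : ℕ) < l.length := by rw [hlen]; exact i.2
  rw [← hl2, List.getD_eq_getElem _ _ (by rw [List.length_map]; exact hi), List.getElem_map]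
  rfl

theorem ev_PP {r : ℕ} (hr : 1 ≤ r) {w : List (MvPolynomial (Fin r) K)} (hw : w.Perm (Xs K r)) :
    ev (PP r) w = PP r := by
  classical
  obtain ⟨σ, hσ⟩ := perm_Xs hr hw
  unfold ev PP
  have e : (fun i : Fin r => w.getD i 0) = fun i => X (σ i) := funext hσ
  rw [e, map_prod]
  refine Finset.prod_equiv (Equiv.finsetCongr σ) (fun S => ?_) (fun S _ => ?_)
  · simp only [fam, Finset.mem_filter, Finset.mem_univ, true_and, Equiv.finsetCongr_apply,
      Finset.card_map]
  · rw [lf, lf, map_sum, Equiv.finsetCongr_apply, Finset.sum_map]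
    simp

theorem ev_pow {R A : Type} [CommRing R] [CommRing A] [Algebra R A] {r : ℕ}
    (f : MvPolynomial (Fin r) R) (k : ℕ) (l : List A) : ev (f ^ k) l = ev f l ^ k := by
  unfold ev; rw [map_pow]

/-- the edge form evaluated at a list -/
theorem ev_shp {r : ℕ} (f : MvPolynomial (Fin r) K) {A : Type} [CommRing A] [Algebra K A]
    (w : List A) (hw : w.length = r) : ev (shp f) w = ev f (ps 0 w) := by
  have e := map_Xs (R := K) w hw
  set φ : MvPolynomial (Fin r) K →ₐ[K] A := aeval (fun i : Fin r => w.getD i 0) with hφ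
  have h1 : ev (shp f) w = φ (shp f) := rfl
  rw [h1, shp, ← ev_map, ← ps_map φ (map_add φ), map_zero, e]

/-- the first half of the equations -/
def LS1 {r : ℕ} (F : MvPolynomial (Fin r) K) : Prop :=
  ∀ i, 0 < i → i < r → sh ((Xs K r).take i) ((Xs K r).drop i) (ev F) = 0

theorem LS1.lie {r : ℕ} {F : MvPolynomial (Fin r) K} (h : LS1 F) {A : Type} [CommRing A]
    [Algebra K A] : Lie r (ev F : List A → A) := by
  intro u v hu hv huv
  have hl : (u ++ v).length = r := by simp [huv]
  set φ : MvPolynomial (Fin r) K →ₐ[K] A := aeval (fun i : Fin r => (u ++ v).getD i 0) with hφ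
  have e := map_Xs (R := K) (u ++ v) hl
  have hu0 : 0 < u.length := List.length_pos_iff.2 hu
  have hv0 : 0 < v.length := List.length_pos_iff.2 hv
  have e1 : ((Xs K r).take u.length).map φ = u := by
    rw [List.map_take, e, List.take_left]
  have e2 : ((Xs K r).drop u.length).map φ = v := by
    rw [List.map_drop, e, List.drop_left]
  rw [← e1, ← e2, sh_map]
  have h1 := h u.length hu0 (by omega)
  have h2 := congrArg φ.toAddMonoidHom h1
  rw [sh_hom, map_zero] at h2
  refine Eq.trans ?_ h2
  congr 1
  funext w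
  exact ev_map F φ w

theorem take_drop_perm {α : Type} (l : List α) (i : ℕ) : l.take i ++ l.drop i = l :=
  List.take_append_drop i l

theorem quot_LS1 {r k : ℕ} (hr : 3 ≤ r) {f F : MvPolynomial (Fin r) K} (hf : IsLS f)
    (h : PP r ^ k * F = shp f) : LS1 F := by
  intro i h0 hi
  have hP : PP r ^ k ≠ 0 := pow_ne_zero _ (PP_ne hr)
  have hlen : (Xs K r).length = r := Xs_length
  have h1 : sh ((Xs K r).take i) ((Xs K r).drop i) (ev (shp f)) = 0 := by
    have h2 := (hf i h0 hi).2
    rw [← h2]
    refine sh_congr _ _ _ rfl _ _ fun w hw => ?_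
    refine ev_shp f w ?_
    rw [hw.length_eq, List.take_append_drop, hlen]
  have h3 : PP r ^ k * sh ((Xs K r).take i) ((Xs K r).drop i) (ev F) = 0 := by
    have h4 := sh_hom (AddMonoidHom.mulLeft (PP r ^ k)) ((Xs K r).take i) ((Xs K r).drop i) (ev F)
    rw [AddMonoidHom.coe_mulLeft] at h4
    rw [h4, ← h1]
    refine sh_congr _ _ _ rfl _ _ fun w hw => ?_
    rw [List.take_append_drop] at hw
    rw [← h, ev_mul, ev_pow, ev_PP (by omega) hw]
  exact (mul_eq_zero.1 h3).resolve_left hP

/-- the map `φ` -/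
noncomputable def phi {m : ℕ} (F : MvPolynomial (Fin (m + 1)) K) : MvPolynomial (Fin m) K :=
  ev F (G0 m)

theorem add_self_K {A : Type} [CommRing A] [Algebra K A] (a : A) : a + a = 0 := by
  have h : (2 : K) = 0 := rfl
  have h1 : a + a = algebraMap K A 2 * a := by
    rw [map_ofNat]; ring
  rw [h1, h, map_zero, zero_mul]

theorem Xs_sum (m : ℕ) : (Xs K m).sum = ∑ i, X i := by
  rw [Xs, ← List.ofFn_eq_map, List.sum_ofFn]

theorem G0_sum (m : ℕ) : (G0 m).sum = 0 := by
  rw [G0, List.sum_cons, Xs_sum]
  exact add_self_K _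

theorem G0_length (m : ℕ) : (G0 m).length = m + 1 := by
  rw [G0, List.length_cons, Xs_length]

theorem phi_ev {m : ℕ} (F : MvPolynomial (Fin (m + 1)) K) {A : Type} [CommRing A] [Algebra K A]
    (w : List A) (hw : w.length = m + 1) (hs : w.sum = 0) : ev (phi F) w.tail = ev F w := by
  cases w with
  | nil => simp at hw
  | cons a w =>
    simp only [List.length_cons, Nat.add_right_cancel_iff] at hw
    rw [List.tail_cons]
    have e := map_Xs (R := K) w hw
    set φ : MvPolynomial (Fin m) K →ₐ[K] A := aeval (fun i : Fin m => w.getD i 0) with hφ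
    have h1 : ev (phi F) w = φ (phi F) := rfl
    rw [h1, phi, ← ev_map]
    congr 1
    rw [G0, List.map_cons, e]
    congr 1
    rw [← Xs_sum, map_list_sum, e]
    rw [List.sum_cons] at hs
    have h2 := add_self_K w.sum
    calc w.sum = (a + w.sum) - a := by ring
      _ = -a := by rw [hs, zero_sub]
      _ = a := by
        have h3 := add_self_K a
        exact (eq_neg_of_add_eq_zero_left h3).symm

theorem phi_CH {m : ℕ} {F : MvPolynomial (Fin (m + 1)) K} (h : LS1 F) : CH (phi F) := by
  intro i h0 hi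
  have h1 : sh ((G0 m).take i) ((G0 m).drop i) (ev F) = 0 := by
    have hl := G0_length m
    refine h.lie _ _ ?_ ?_ ?_
    · rw [← List.length_pos_iff, List.length_take]
      omega
    · rw [← List.length_pos_iff, List.length_drop]
      omega
    · rw [List.length_take, List.length_drop]
      omega
  rw [← h1]
  refine sh_congr _ _ _ rfl _ _ fun w hw => ?_
  rw [List.take_append_drop] at hw
  exact phi_ev F w (by rw [hw.length_eq, G0_length]) (by rw [hw.sum_eq, G0_sum])

theorem phi_hom {m d : ℕ} {F : MvPolynomial (Fin (m + 1)) K} (h : F.IsHomogeneous d) :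
    (phi F).IsHomogeneous d := by
  have h1 : ∀ i : Fin (m + 1), ((G0 m).getD i 0).IsHomogeneous 1 := by
    intro i
    refine Fin.cases ?_ (fun j => ?_) i
    · show (∑ i, X i : MvPolynomial (Fin m) K).IsHomogeneous 1
      exact MvPolynomial.IsHomogeneous.sum _ _ _ fun i _ => isHomogeneous_X K i
    · have : (G0 m).getD (Fin.succ j : ℕ) 0 = X j := by
        rw [G0, Fin.val_succ, List.getD_cons_succ]
        simp [Xs, List.getD]
      rw [this]
      exact isHomogeneous_X K j
  have h2 := h.aeval (fun i : Fin (m + 1) => (G0 m).getD i 0) h1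
  rw [one_mul] at h2
  exact h2

/-- if `phi F = 0` then `σ` divides `F` -/
theorem sigma_dvd {m : ℕ} {F : MvPolynomial (Fin (m + 1)) K} (h : phi F = 0) :
    (∑ i, X i : MvPolynomial (Fin (m + 1)) K) ∣ F := by
  rw [← Ideal.mem_span_singleton, ← Ideal.Quotient.eq_zero_iff_mem]
  set I : Ideal (MvPolynomial (Fin (m + 1)) K) := Ideal.span {∑ i, X i} with hI
  let mk : MvPolynomial (Fin (m + 1)) K →ₐ[K] (MvPolynomial (Fin (m + 1)) K ⧸ I) :=
    Ideal.Quotient.mkₐ K I
  let w : List (MvPolynomial (Fin (m + 1)) K ⧸ I) := (Xs K (m + 1)).map mk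
  have hw : w.length = m + 1 := by
    simp only [w, List.length_map, Xs_length]
  have hs : w.sum = 0 := by
    have h1 : w.sum = mk (Xs K (m + 1)).sum := (map_list_sum mk _).symm
    rw [h1, Xs_sum]
    show Ideal.Quotient.mk I _ = 0
    rw [Ideal.Quotient.eq_zero_iff_mem, hI]
    exact Ideal.mem_span_singleton_self _
  have h2 := phi_ev F w hw hs
  rw [h, ev_zero] at h2
  have h3 : ev F w = mk (ev F (Xs K (m + 1))) := ev_map F mk _
  rw [ev_Xs] at h3
  rw [h3] at h2
  exact h2.symm

theorem univ_mem_fam (m : ℕ) : (Finset.univ : Finset (Fin m)) ∈ fam m := by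
  rw [fam, Finset.mem_filter]
  refine ⟨Finset.mem_univ _, ?_⟩
  simp

theorem phi_lin {m : ℕ} : ∃ L : MvPolynomial (Fin (m + 1)) K →ₗ[K] MvPolynomial (Fin m) K,
    ∀ F, L F = phi F :=
  ⟨(aeval (fun i : Fin (m + 1) => (G0 m).getD i 0)).toLinearMap, fun _ => rfl⟩

theorem t_FIL : S_FIL := by
  intro hNIL hDIV m n k hm
  have hr : 3 ≤ m + 1 := by omega
  set c := (fam (m + 1)).card with hc
  set Q : MvPolynomial (Fin (m + 1)) K := PP (m + 1) ^ k with hQ
  have hQ0 : Q ≠ 0 := pow_ne_zero _ (PP_ne hr)
  have hQh : Q.IsHomogeneous (k * c) := by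
    have := (PP_hom (m + 1)).pow k
    rwa [mul_comm] at this
  -- elements of Esp are homogeneous and divisible by Q
  have hEh : ∀ k' : ℕ, ∀ F ∈ Esp (m + 1) n k', F.IsHomogeneous n := by
    rintro k' F ⟨⟨f, hf, rfl⟩, _⟩
    have h1 : ∀ i : Fin (m + 1), ((ps 0 (Xs K (m + 1))).getD i 0).IsHomogeneous 1 := by
      intro i
      have h2 : ∀ (l : List (MvPolynomial (Fin (m + 1)) K)) (s : MvPolynomial (Fin (m + 1)) K),
          s.IsHomogeneous 1 → (∀ a ∈ l, a.IsHomogeneous 1) → ∀ b ∈ ps s l, b.IsHomogeneous 1 := by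
        intro l
        induction l with
        | nil => intro s _ _ b hb; simp [ps] at hb
        | cons a l ih =>
          intro s hs hl b hb
          rw [ps, List.mem_cons] at hb
          have h3 : (s + a).IsHomogeneous 1 := hs.add (hl a List.mem_cons_self)
          rcases hb with rfl | hb
          · exact h3
          · exact ih (s + a) h3 (fun a' ha' => hl a' (List.mem_cons_of_mem _ ha')) b hb
      have h4 : (i : ℕ) < (ps 0 (Xs K (m + 1))).length := by
        rw [ps_length, Xs_length]; exact i.2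
      rw [List.getD_eq_getElem _ _ h4]
      refine h2 _ 0 (isHomogeneous_zero _ _ _) (fun a ha => ?_) _ (List.getElem_mem h4)
      rw [Xs, List.mem_map] at ha
      obtain ⟨j, _, rfl⟩ := ha
      exact isHomogeneous_X K j
    have h5 := (mem_D.1 hf).1.aeval (fun i : Fin (m + 1) => (ps 0 (Xs K (m + 1))).getD i 0) h1
    rw [one_mul] at h5
    exact h5
  have hEd : ∀ F ∈ Esp (m + 1) n k, Q ∣ F := by
    rintro F ⟨⟨f, hf, rfl⟩, hF⟩
    have h1 := hNIL (m + 1) k f hr (mem_D.1 hf).2 hF
    exact hDIV (m + 1) k (shp f) (fam (m + 1)) (fun S hS => fam_nonempty hr hS) h1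
  have hfin : ∀ k' : ℕ, Module.Finite K (Esp (m + 1) n k') := by
    intro k'
    have hle : Esp (m + 1) n k' ≤ homogeneousSubmodule (Fin (m + 1)) K n := hEh k'
    exact Submodule.finiteDimensional_of_le hle
  have hfinL : ∀ n' : ℕ, Module.Finite K (Lam m n') := by
    intro n'
    have hle : Lam m n' ≤ homogeneousSubmodule (Fin m) K n' := fun q hq => hq.1
    exact Submodule.finiteDimensional_of_le hle
  -- the space of the quotients
  let μ : MvPolynomial (Fin (m + 1)) K →ₗ[K] MvPolynomial (Fin (m + 1)) K := LinearMap.mulLeft K Q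
  have hμ : ∀ F, μ F = Q * F := fun F => rfl
  have hμi : Function.Injective μ := by
    intro F G hFG
    exact mul_left_cancel₀ hQ0 hFG
  let V : Submodule K (MvPolynomial (Fin (m + 1)) K) := (Esp (m + 1) n k).comap μ
  have hV : ∀ F, F ∈ V ↔ Q * F ∈ Esp (m + 1) n k := fun F => Iff.rfl
  -- V → Esp is bijective
  let e : V →ₗ[K] Esp (m + 1) n k := (μ.comp V.subtype).codRestrict _ (fun F => F.2)
  have he_inj : Function.Injective e := by
    intro F G hFG
    have : μ F.1 = μ G.1 := congrArg Subtype.val hFG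
    exact Subtype.ext (hμi this)
  have he_surj : Function.Surjective e := by
    rintro ⟨F, hF⟩
    obtain ⟨F', hF'⟩ := hEd F hF
    refine ⟨⟨F', ?_⟩, Subtype.ext ?_⟩
    · rw [hV, ← hF']; exact hF
    · exact hF'.symm
  have hrank : Module.finrank K (Esp (m + 1) n k) = Module.finrank K V :=
    (LinearEquiv.finrank_eq (LinearEquiv.ofBijective e ⟨he_inj, he_surj⟩)).symm
  have : Module.Finite K V := Module.Finite.equiv (LinearEquiv.ofBijective e ⟨he_inj, he_surj⟩).symm
  rw [hrank]
  by_cases hkc : k * c ≤ n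
  · rw [if_pos hkc]
    obtain ⟨L, hL⟩ := phi_lin (m := m)
    let ψ : V →ₗ[K] Lam m (n - k * c) := (L.comp V.subtype).codRestrict _ (by
      rintro ⟨F, hF⟩
      show L F ∈ _
      rw [hL]
      have hF1 := (hV F).1 hF
      obtain ⟨⟨f, hf, hfF⟩, _⟩ := hF1
      exact ⟨phi_hom ((hom_quot hQh hQ0 (hEh k _ hF)).1 hkc),
        phi_CH (quot_LS1 hr (mem_D.1 hf).2 hfF)⟩)
    have hrn := LinearMap.finrank_range_add_finrank_ker ψ
    have h1 : Module.finrank K (LinearMap.range ψ) ≤ Module.finrank K (Lam m (n - k * c)) :=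
      Submodule.finrank_le _
    have h2 : Module.finrank K (LinearMap.ker ψ) ≤ Module.finrank K (Esp (m + 1) n (k + 1)) := by
      let e' : LinearMap.ker ψ →ₗ[K] Esp (m + 1) n (k + 1) :=
        ((μ.comp V.subtype).comp (LinearMap.ker ψ).subtype).codRestrict _ (by
          rintro ⟨⟨F, hF⟩, hF'⟩
          show Q * F ∈ _
          have hF1 := (hV F).1 hF
          refine ⟨hF1.1, ?_⟩
          have h3 : phi F = 0 := by
            rw [← hL]
            exact congrArg Subtype.val (LinearMap.mem_ker.1 hF')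
          have h4 := sigma_dvd h3
          rw [pow_succ]
          refine mul_dvd_mul ?_ h4
          refine pow_dvd_pow_of_dvd ?_ k
          exact Finset.dvd_prod_of_mem lf (univ_mem_fam (m + 1)))
      refine LinearMap.finrank_le_finrank_of_injective (f := e') ?_
      intro F G hFG
      have : μ F.1.1 = μ G.1.1 := congrArg Subtype.val hFG
      exact Subtype.ext (Subtype.ext (hμi this))
    omega
  · rw [if_neg hkc, add_zero]
    have h0 : V = ⊥ := by
      rw [eq_bot_iff]
      intro F hF
      have := (hom_quot hQh hQ0 (hEh k _ hF)).2 (by omega)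
      exact this
    rw [h0, finrank_bot]
    exact Nat.zero_le _

end Run7.h67.LS
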